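import Pool.Agent.H.MP_ba14eb_lc.D

namespace Pool.Agent.Results.MP_ba14eb_lc.Yes

open FirstOrder FirstOrder.Language Pool.Agent.H.MP_ba14eb_lc

theorem result :
    ∃ L : FirstOrder.Language.{0, 0}, L.IsRelational ∧ Countable L.Symbols ∧
      ∃ T : L.Theory, T.IsComplete ∧ Axz false 2 T ∧
        ∃ (m : ℕ) (p : T.CompleteType (Fin m)), ∀ n : ℕ, ¬ Axz true n p.toTheory :=
  ⟨LL, inferInstance, inferInstance, LL.completeTheory (U ∅), completeTheory.isComplete _ _,
    axz_T, 1,
    { toTheory := LL[[Fin 1]].completeTheory (U CA)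
      subset' := Theory.model_iff_subset_completeTheory.1
        ((LHom.onTheory_model _ _).2 inferInstance)
      isMaximal' := completeTheory.isMaximal _ _ }, unbounded⟩

end Pool.Agent.Results.MP_ba14eb_lc.Yes
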